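import Mathlib

/-!
# The Cancellation Law for actions of groups: definitions

Groups are written additively, they need not be commutative.
-/

set_option autoImplicit false

open scoped Pointwise
open Set Function MeasureTheory

universe u v w

namespace Pool.Agent.Y328.CC

section defs

variable (G : Type u) {X : Type v} [AddGroup G] [AddAction G X]

/-- The family `𝒜` of subsets of `X` is invariant under the action of `G`. -/
def Inv (𝒜 : Set (Set X)) : Prop := ∀ (g : G), ∀ A ∈ 𝒜, g +ᵥ A ∈ 𝒜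

/-- `A ∼ B` with pieces in `𝒜`: `A = A_1 ⊔ … ⊔ A_k`, `B = B_1 ⊔ … ⊔ B_k` with `A_i, B_i ∈ 𝒜` and
`B_i = g_i A_i`, `g_i ∈ G`. -/
def Equi (𝒜 : Set (Set X)) (A B : Set X) : Prop :=
  ∃ (k : ℕ) (C : Fin k → Set X) (g : Fin k → G),
    (∀ i, C i ∈ 𝒜) ∧ (∀ i, g i +ᵥ C i ∈ 𝒜) ∧
    Pairwise (Disjoint on C) ∧ (⋃ i, C i) = A ∧
    Pairwise (Disjoint on fun i => g i +ᵥ C i) ∧ (⋃ i, g i +ᵥ C i) = B

/-- `n[A] = n[B]`: finitely many pieces `C_i × {j_i}` with `C_i ∈ 𝒜` partition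
`A × {0, …, n-1}`, and the sets `(g_i C_i) × {m_i}`, with `g_i C_i ∈ 𝒜`, partition
`B × {0, …, n-1}`. -/
def MulEqui (𝒜 : Set (Set X)) (n : ℕ) (A B : Set X) : Prop :=
  ∃ (k : ℕ) (C : Fin k → Set X) (g : Fin k → G) (j m : Fin k → Fin n),
    (∀ i, C i ∈ 𝒜) ∧ (∀ i, g i +ᵥ C i ∈ 𝒜) ∧
    Pairwise (Disjoint on fun i => C i ×ˢ ({j i} : Set (Fin n))) ∧
    (⋃ i, C i ×ˢ ({j i} : Set (Fin n))) = A ×ˢ (univ : Set (Fin n)) ∧
    Pairwise (Disjoint on fun i => (g i +ᵥ C i) ×ˢ ({m i} : Set (Fin n))) ∧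
    (⋃ i, (g i +ᵥ C i) ×ˢ ({m i} : Set (Fin n))) = B ×ˢ (univ : Set (Fin n))

/-- The Cancellation Law for `(X, G, 𝒜)`. -/
def Law (𝒜 : Set (Set X)) : Prop :=
  ∀ A ∈ 𝒜, ∀ B ∈ 𝒜, ∀ n : ℕ, 1 ≤ n → MulEqui G 𝒜 n A B → Equi G 𝒜 A B

/-- The Cancellation Law fails for some `G`-invariant algebra, with the number `n`. -/
def Fails (X : Type v) [AddAction G X] (n : ℕ) : Prop :=
  ∃ 𝒜 : Set (Set X), IsSetAlgebra 𝒜 ∧ Inv G 𝒜 ∧
    ∃ A ∈ 𝒜, ∃ B ∈ 𝒜, MulEqui G 𝒜 n A B ∧ ¬ Equi G 𝒜 A B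

end defs

section basic

variable {G : Type u} {X : Type v} [AddGroup G] [AddAction G X] {𝒜 : Set (Set X)}

lemma mem_v {t : G} {x : X} {A : Set X} : x ∈ t +ᵥ A ↔ -t +ᵥ x ∈ A :=
  Set.mem_vadd_set_iff_neg_vadd_mem

/-- Pointwise form of `MulEqui` over an arbitrary finite index type. -/
lemma mulEqui_of_pointwise (hinv : Inv G 𝒜) {n : ℕ} {A B : Set X}
    {I : Type w} [Fintype I] (C : I → Set X) (g : I → G) (j m : I → Fin n)
    (hC : ∀ i, C i ∈ 𝒜)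
    (s1 : ∀ i, C i ⊆ A) (s2 : ∀ x ∈ A, ∀ l, ∃! i, j i = l ∧ x ∈ C i)
    (t1 : ∀ i, ∀ x ∈ C i, g i +ᵥ x ∈ B) (t2 : ∀ y ∈ B, ∀ l, ∃! i, m i = l ∧ -g i +ᵥ y ∈ C i) :
    MulEqui G 𝒜 n A B := by
  classical
  let e := (Fintype.equivFin I).symm
  refine ⟨Fintype.card I, C ∘ e, g ∘ e, j ∘ e, m ∘ e, fun i => hC _, fun i => hinv _ _ (hC _),
    ?_, ?_, ?_, ?_⟩
  · intro a b hab
    rw [Function.onFun, Set.disjoint_left]
    rintro ⟨x, l⟩ ⟨hxa, hla⟩ ⟨hxb, hlb⟩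
    simp only [comp_apply, mem_singleton_iff] at hxa hla hxb hlb
    apply hab
    apply e.injective
    obtain ⟨i, _, hi⟩ := s2 x (s1 _ hxa) l
    rw [hi (e a) ⟨hla.symm, hxa⟩, hi (e b) ⟨hlb.symm, hxb⟩]
  · ext ⟨x, l⟩
    simp only [mem_iUnion, mem_prod, comp_apply, mem_singleton_iff, mem_univ, and_true]
    constructor
    · rintro ⟨i, hi, _⟩
      exact s1 _ hi
    · intro hx
      obtain ⟨i, ⟨hi1, hi2⟩, _⟩ := s2 x hx l
      exact ⟨e.symm i, by simpa using hi2, by simpa using hi1.symm⟩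
  · intro a b hab
    rw [Function.onFun, Set.disjoint_left]
    rintro ⟨x, l⟩ ⟨hxa, hla⟩ ⟨hxb, hlb⟩
    simp only [comp_apply, mem_singleton_iff, mem_v] at hxa hla hxb hlb
    apply hab
    apply e.injective
    have hxB : x ∈ B := by
      have := t1 _ _ hxa
      rwa [vadd_neg_vadd] at this
    obtain ⟨i, _, hi⟩ := t2 x hxB l
    rw [hi (e a) ⟨hla.symm, hxa⟩, hi (e b) ⟨hlb.symm, hxb⟩]
  · ext ⟨x, l⟩
    simp only [mem_iUnion, mem_prod, comp_apply, mem_singleton_iff, mem_univ, and_true,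
      mem_v]
    constructor
    · rintro ⟨i, hi, _⟩
      have := t1 _ _ hi
      rwa [vadd_neg_vadd] at this
    · intro hx
      obtain ⟨i, ⟨hi1, hi2⟩, _⟩ := t2 x hx l
      exact ⟨e.symm i, by simpa using hi2, by simpa using hi1.symm⟩

/-- Pointwise form of `Equi` over an arbitrary finite index type. -/
lemma equi_of_pointwise (hinv : Inv G 𝒜) {A B : Set X}
    {I : Type w} [Fintype I] (C : I → Set X) (g : I → G)
    (hC : ∀ i, C i ∈ 𝒜)
    (s1 : ∀ i, C i ⊆ A) (s2 : ∀ x ∈ A, ∃! i, x ∈ C i)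
    (t1 : ∀ i, ∀ x ∈ C i, g i +ᵥ x ∈ B) (t2 : ∀ y ∈ B, ∃! i, -g i +ᵥ y ∈ C i) :
    Equi G 𝒜 A B := by
  classical
  let e := (Fintype.equivFin I).symm
  refine ⟨Fintype.card I, C ∘ e, g ∘ e, fun i => hC _, fun i => hinv _ _ (hC _),
    ?_, ?_, ?_, ?_⟩
  · intro a b hab
    rw [Function.onFun, Set.disjoint_left]
    intro x hxa hxb
    simp only [comp_apply] at hxa hxb
    apply hab
    apply e.injective
    obtain ⟨i, _, hi⟩ := s2 x (s1 _ hxa)
    rw [hi (e a) hxa, hi (e b) hxb]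
  · ext x
    simp only [mem_iUnion, comp_apply]
    constructor
    · rintro ⟨i, hi⟩
      exact s1 _ hi
    · intro hx
      obtain ⟨i, hi1, _⟩ := s2 x hx
      exact ⟨e.symm i, by simpa using hi1⟩
  · intro a b hab
    rw [Function.onFun, Set.disjoint_left]
    intro x hxa hxb
    simp only [comp_apply, mem_v] at hxa hxb
    apply hab
    apply e.injective
    have hxB : x ∈ B := by
      have := t1 _ _ hxa
      rwa [vadd_neg_vadd] at this
    obtain ⟨i, _, hi⟩ := t2 x hxB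
    rw [hi (e a) hxa, hi (e b) hxb]
  · ext x
    simp only [mem_iUnion, comp_apply, mem_v]
    constructor
    · rintro ⟨i, hi⟩
      have := t1 _ _ hi
      rwa [vadd_neg_vadd] at this
    · intro hx
      obtain ⟨i, hi1, _⟩ := t2 x hx
      exact ⟨e.symm i, by simpa using hi1⟩

end basic

/-- (LOCA) Sets which are determined by finitely many translates of finitely many sets of the
algebra are in the algebra. -/
def S_LOCA : Prop :=
  ∀ (G : Type u) (X : Type v) [AddGroup G] [AddAction G X] (𝒜 : Set (Set X)), IsSetAlgebra 𝒜 →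
    Inv G 𝒜 → ∀ (κ ι : Type) [Finite κ] [Finite ι] (h : κ → G) (E : ι → Set X),
    (∀ e, E e ∈ 𝒜) → ∀ P : Set X,
    (∀ x y : X, (∀ f e, h f +ᵥ x ∈ E e ↔ h f +ᵥ y ∈ E e) → (x ∈ P → y ∈ P)) → P ∈ 𝒜

/-- (FIN) Cancellation if all elements used are in a finite subgroup. -/
def S_FIN : Prop :=
  ∀ (G : Type u) (X : Type v) [AddGroup G] [AddAction G X] (𝒜 : Set (Set X)), IsSetAlgebra 𝒜 →
    Inv G 𝒜 → ∀ (F : AddSubgroup G), Finite F → ∀ A ∈ 𝒜, ∀ B ∈ 𝒜, ∀ (n k : ℕ), 1 ≤ n →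
    ∀ (C : Fin k → Set X) (g : Fin k → G) (j m : Fin k → Fin n), (∀ i, g i ∈ F) →
    (∀ i, C i ∈ 𝒜) →
    Pairwise (Disjoint on fun i => C i ×ˢ ({j i} : Set (Fin n))) →
    (⋃ i, C i ×ˢ ({j i} : Set (Fin n))) = A ×ˢ (univ : Set (Fin n)) →
    Pairwise (Disjoint on fun i => (g i +ᵥ C i) ×ˢ ({m i} : Set (Fin n))) →
    (⋃ i, (g i +ᵥ C i) ×ˢ ({m i} : Set (Fin n))) = B ×ˢ (univ : Set (Fin n)) → Equi G 𝒜 A B

/-- (TRA) Failure for left translations of `H` gives failure for every action of a group which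
contains `H` and such that some point has trivial stabiliser. -/
def S_TRA : Prop :=
  ∀ (H : Type w) (G : Type u) (X : Type v) [AddGroup H] [AddGroup G] [AddAction G X]
    (j : H →+ G), Injective j → ∀ x₀ : X, (∀ g : G, g +ᵥ x₀ = x₀ → g = 0) →
    ∀ n : ℕ, Fails H H n → Fails G X n

/-- (NC) Failure in the presence of an element of infinite order and an element of prime order. -/
def S_NC : Prop :=
  ∀ (G : Type u) [AddGroup G] (t s : G) (p : ℕ), p.Prime → (∀ n : ℕ, 0 < n → n • t ≠ 0) →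
    s ≠ 0 → p • s = 0 → Fails G G p

end Pool.Agent.Y328.CC
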