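import Pool.Agent.Y328.CC.Act

/-!
# The Cancellation Law for all groups: statements of the steps, part 3
-/

set_option autoImplicit false

open scoped Pointwise
open Set Function MeasureTheory

universe u v w

namespace Pool.Agent.Y328.CC

/-- (RAY) Rays in infinite orbits of finitely generated groups. -/
def S_RAY : Prop :=
  ∀ (G : Type u) (Y : Type v) [AddGroup G] [AddAction G Y] [AddAction.IsPretransitive G Y]
    [Infinite Y], AddGroup.FG G →
    ∃ (S : Finset G) (r : ℕ → Y), Injective r ∧ ∀ n, ∃ g ∈ S, r (n + 1) = g +ᵥ r n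

/-- (IDX) Failure from an equivariant `m`-to-one map of transitive actions and a ray in the
base. -/
def S_IDX : Prop :=
  ∀ (G : Type u) (Z Y : Type v) [AddGroup G] [AddAction G Z] [AddAction G Y]
    [AddAction.IsPretransitive G Z] (π : Z → Y), (∀ (g : G) (z : Z), π (g +ᵥ z) = g +ᵥ π z) →
    ∀ m : ℕ, 2 ≤ m → (∀ y : Y, Nat.card {z : Z // π z = y} = m) →
    ∀ (S : Finset G) (r : ℕ → Y), Injective r → (∀ n, ∃ g ∈ S, r (n + 1) = g +ᵥ r n) →
    Fails G Z m

/-- (PULL) Failure is inherited along equivariant surjections. -/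
def S_PULL : Prop :=
  ∀ (G : Type u) (X : Type v) (Z : Type w) [AddGroup G] [AddAction G X] [AddAction G Z]
    (φ : X → Z), Surjective φ → (∀ (g : G) (x : X), φ (g +ᵥ x) = g +ᵥ φ x) →
    ∀ n : ℕ, Fails G Z n → Fails G X n

/-- (VZ) A torsion-free group with a cyclic subgroup of finite index is cyclic. -/
def S_VZ : Prop :=
  ∀ (G : Type u) [AddGroup G], (∀ x : G, x ≠ 0 → ∀ n : ℕ, 0 < n → n • x ≠ 0) →
    ∀ c : G, (AddSubgroup.zmultiples c).index ≠ 0 → IsAddCyclic G

end Pool.Agent.Y328.CC
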