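import Pool.Agent.Y328.CC.Act

/-!
# CC-LOC: sets determined by finitely many translates are in the algebra
(by helper259, for actions: helper328)
-/

set_option autoImplicit false

open scoped Pointwise
open Set Function MeasureTheory
open Pool.Agent.Y328.CC

universe u v

namespace Pool.Agent.Y328.CC.A

theorem t_LOCA : S_LOCA.{u, v} := by
  classical
  intro G X _ _ 𝒜 h𝒜 hinv κ ι _ _ h E hE P hP
  obtain ⟨σ, hσ⟩ : ∃ σ : X → κ → ι → Prop, σ = fun x f e => h f +ᵥ x ∈ E e := ⟨_, rfl⟩
  have hsig : ∀ s : κ → ι → Prop, {x | σ x = s} ∈ 𝒜 := by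
    intro s
    have h1 : {x | σ x = s} = ⋂ p ∈ (Set.finite_univ (α := κ × ι)).toFinset,
        {x : X | (h p.1 +ᵥ x ∈ E p.2) ↔ s p.1 p.2} := by
      ext x
      simp only [mem_ofPred_eq, Set.Finite.mem_toFinset, mem_univ, iInter_true, mem_iInter]
      constructor
      · intro hx p
        rw [← hx, hσ]
      · intro hx
        funext f e
        rw [hσ]
        exact propext (hx (f, e))
    rw [h1]
    refine h𝒜.biInter_mem _ ?_
    rintro ⟨f, e⟩ _
    have hsh : {x : X | h f +ᵥ x ∈ E e} ∈ 𝒜 := by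
      have h2 : {x : X | h f +ᵥ x ∈ E e} = (-(h f)) +ᵥ E e := by
        ext x
        rw [mem_v, mem_ofPred_eq, neg_neg]
      rw [h2]
      exact hinv _ _ (hE e)
    by_cases hs : s f e
    · simpa only [hs, iff_true] using hsh
    · simp only [hs, iff_false]
      exact h𝒜.compl_mem hsh
  have hPe : P = ⋃ s ∈ (Set.toFinite (σ '' P)).toFinset, {x | σ x = s} := by
    ext y
    simp only [Set.Finite.mem_toFinset, mem_iUnion, mem_ofPred_eq, exists_prop]
    constructor
    · intro hy
      exact ⟨σ y, ⟨y, hy, rfl⟩, rfl⟩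
    · rintro ⟨s, ⟨x, hx, hxs⟩, hys⟩
      refine hP x y (fun f e => ?_) hx
      have h2 : σ x f e = σ y f e := by rw [hxs, hys]
      rw [hσ] at h2
      exact iff_of_eq h2
  rw [hPe]
  exact h𝒜.biUnion_mem _ fun s _ => hsig s

end Pool.Agent.Y328.CC.A
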