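import Pool.Agent.Y328.CC.Pos
import Pool.Agent.Y328.CC.Act

/-!
# The Cancellation Law holds if all group elements are multiples of one element (actions)
-/

set_option autoImplicit false

open scoped Pointwise
open Set Function MeasureTheory

universe u v

namespace Pool.Agent.Y328.CC.A

section count

variable {X : Type v}

open Classical in
/-- indicator function -/
noncomputable def ind (S : Set X) (x : X) : ℤ := if x ∈ S then 1 else 0

theorem ind_01 (S : Set X) (x : X) : ind S x = 0 ∨ ind S x = 1 := by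
  unfold ind
  split_ifs
  · exact Or.inr rfl
  · exact Or.inl rfl

theorem ind_eq_one {S : Set X} {x : X} : ind S x = 1 ↔ x ∈ S := by
  unfold ind
  split_ifs with h
  · simp [h]
  · simp [h]

theorem ind_congr {S T : Set X} {x y : X} (h : x ∈ S ↔ y ∈ T) : ind S x = ind T y := by
  unfold ind
  by_cases hx : x ∈ S
  · rw [if_pos hx, if_pos (h.1 hx)]
  · rw [if_neg hx, if_neg (fun hy => hx (h.2 hy))]

theorem cntA {k n : ℕ} {A : Set X} {C : Fin k → Set X} {js : Fin k → Fin n}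
    (h3 : Pairwise (Disjoint on fun i => C i ×ˢ ({js i} : Set (Fin n))))
    (h4 : (⋃ i, C i ×ˢ ({js i} : Set (Fin n))) = A ×ˢ (univ : Set (Fin n))) (x : X) :
    ∑ i, ind (C i) x = n * ind A x := by
  classical
  have hx : ∀ l : Fin n, (∑ i, if js i = l then ind (C i) x else 0) = ind A x := by
    intro l
    by_cases hxA : x ∈ A
    · rw [ind_eq_one.2 hxA]
      have : ((x, l) : X × Fin n) ∈ (⋃ i, C i ×ˢ ({js i} : Set (Fin n))) := by
        rw [h4]; exact ⟨hxA, trivial⟩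
      obtain ⟨i, hi⟩ := mem_iUnion.mp this
      rw [Finset.sum_eq_single i, if_pos hi.2.symm, ind_eq_one.2 hi.1]
      · intro i' _ hne
        by_cases hj : js i' = l
        · rw [if_pos hj]
          rcases ind_01 (C i') x with h | h
          · exact h
          · exfalso
            exact Set.disjoint_left.mp (h3 hne) (show (x, l) ∈ C i' ×ˢ ({js i'} : Set (Fin n)) from
              ⟨ind_eq_one.1 h, hj.symm⟩) hi
        · rw [if_neg hj]
      · simp
    · have h0 : ind A x = 0 := by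
        rcases ind_01 A x with h | h
        · exact h
        · exact absurd (ind_eq_one.1 h) hxA
      rw [h0]
      apply Finset.sum_eq_zero
      intro i _
      by_cases hj : js i = l
      · rw [if_pos hj]
        rcases ind_01 (C i) x with h | h
        · exact h
        · exfalso
          have : ((x, l) : X × Fin n) ∈ A ×ˢ (univ : Set (Fin n)) := by
            rw [← h4]; exact mem_iUnion.mpr ⟨i, ind_eq_one.1 h, hj.symm⟩
          exact hxA this.1
      · rw [if_neg hj]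
  have hsum : ∑ l : Fin n, (∑ i, if js i = l then ind (C i) x else 0) = ∑ i, ind (C i) x := by
    rw [Finset.sum_comm]
    refine Finset.sum_congr rfl fun i _ => ?_
    rw [Finset.sum_ite_eq]
    simp
  rw [← hsum, Finset.sum_congr rfl (fun l _ => hx l)]
  simp

end count

theorem pos (hLOC : S_LOCA.{u, v}) (hSEQ : S_SEQ) {G : Type u} {X : Type v} [AddGroup G]
    [AddAction G X] {𝒜 : Set (Set X)} (h𝒜 : IsSetAlgebra 𝒜) (hinv : Inv G 𝒜) (t : G) {A B : Set X} (hA : A ∈ 𝒜)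
    (hB : B ∈ 𝒜) {n : ℕ} (hn : 1 ≤ n) {k : ℕ} (C : Fin k → Set X) (m : Fin k → ℤ)
    (js ms : Fin k → Fin n) (h1 : ∀ i, C i ∈ 𝒜)
    (h3 : Pairwise (Disjoint on fun i => C i ×ˢ ({js i} : Set (Fin n))))
    (h4 : (⋃ i, C i ×ˢ ({js i} : Set (Fin n))) = A ×ˢ (univ : Set (Fin n)))
    (h5 : Pairwise (Disjoint on fun i => ((m i • t) +ᵥ C i) ×ˢ ({ms i} : Set (Fin n))))
    (h6 : (⋃ i, ((m i • t) +ᵥ C i) ×ˢ ({ms i} : Set (Fin n))) = B ×ˢ (univ : Set (Fin n))) :
    Equi G 𝒜 A B := by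
  classical
  -- the bound for the translations
  obtain ⟨R, hR⟩ : ∃ R : ℕ, ∀ i, -(R : ℤ) ≤ m i ∧ m i ≤ R := by
    refine ⟨∑ i, (m i).natAbs, fun i => ?_⟩
    have h := Finset.single_le_sum (f := fun i => (m i).natAbs) (fun _ _ => Nat.zero_le _)
      (Finset.mem_univ i)
    have h' : (m i).natAbs ≤ ∑ i, (m i).natAbs := h
    omega
  obtain ⟨σ, hσ⟩ : ∃ σ : X → ℤ → X, ∀ x p, σ x p = (p • t) +ᵥ x :=
    ⟨fun x p => (p • t) +ᵥ x, fun _ _ => rfl⟩
  have hσ0 : ∀ x, σ x 0 = x := by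
    intro x
    rw [hσ, zero_zsmul, zero_vadd]
  have hσσ : ∀ x a b, σ (σ x a) b = σ x (b + a) := by
    intro x a b
    rw [hσ, hσ, hσ, add_zsmul, add_vadd]
  -- the sequences at a base point
  let γ : X → Fin k → ℤ → ℤ := fun x i p => ind (C i) (σ x p)
  let α : X → ℤ → ℤ := fun x p => ind A (σ x p)
  let β : X → ℤ → ℤ := fun x p => ind B (σ x p)
  let f : X → ℤ → ℤ := fun x s => (∑ i, (cum (γ x i) s - cum (γ x i) (s - m i))) / (n : ℤ)
  have hγ : ∀ x i p, 0 ≤ γ x i p := by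
    intro x i p
    rcases ind_01 (C i) (σ x p) with h | h
    · exact h.ge
    · show 0 ≤ ind (C i) (σ x p)
      rw [h]
      norm_num
  have hcA : ∀ x p, ∑ i, γ x i p = n * α x p := fun x p => cntA h3 h4 _
  have hcB : ∀ x p, ∑ i, γ x i (p - m i) = n * β x p := by
    intro x p
    have h := cntA (C := fun i => (m i • t) +ᵥ C i) h5 h6 (σ x p)
    rw [← h]
    refine Finset.sum_congr rfl fun i _ => ?_
    show ind (C i) _ = ind _ _
    refine ind_congr ?_
    rw [mem_v, ← neg_zsmul, ← hσ, hσσ]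
    have e : -m i + p = p - m i := by ring
    rw [e]
  have key := fun x => flow hSEQ (γ x) (α x) (β x) m n R (by exact_mod_cast hn) (hγ x)
    (fun i => ind_01 _ _) (fun i => ind_01 _ _) (hcA x) (hcB x) hR (f x) (fun s => rfl)
  -- the pieces
  let D : Finset.Icc (-(R : ℤ)) R → Set X := fun d =>
    {x | x ∈ A ∧ σ x d ∈ B ∧ cum (β x) d = f x 0}
  have hβs : ∀ (x : X) (s b : ℤ), cum (β (σ x s)) b = cum (β x) (b + s) - cum (β x) s := by
    intro x s b
    rw [← cum_shift]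
    congr 1
    funext p
    show ind B _ = ind B _
    rw [hσσ]
  have hfs : ∀ (x : X) (s : ℤ), f (σ x s) 0 = f x s := by
    intro x s
    show (∑ i, (cum (γ (σ x s) i) 0 - cum (γ (σ x s) i) (0 - m i))) / (n : ℤ) = _ / (n : ℤ)
    congr 1
    refine Finset.sum_congr rfl fun i _ => ?_
    have e : ∀ b, cum (γ (σ x s) i) b = cum (γ x i) (b + s) - cum (γ x i) s := by
      intro b
      rw [← cum_shift]
      congr 1
      funext p
      show ind (C i) _ = ind (C i) _
      rw [hσσ]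
    rw [e, e, zero_add]
    have e2 : 0 - m i + s = s - m i := by ring
    rw [e2]
    ring
  refine equi_of_pointwise hinv (I := Finset.Icc (-(R : ℤ)) R) D (fun d => (d : ℤ) • t)
    ?_ ?_ ?_ ?_ ?_
  · intro d
    have hd := Finset.mem_Icc.1 d.2
    refine hLOC G X 𝒜 h𝒜 hinv (Finset.Icc (-(R : ℤ)) R) (Fin k ⊕ Bool) (fun p => (p : ℤ) • t)
      (fun e => Sum.elim C (fun b => if b then A else B) e) ?_ (D d) ?_
    · rintro (i | b)
      · exact h1 i
      · cases b
        · exact hB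
        · exact hA
    · intro x y hxy hx
      have hC : ∀ i p, -(R : ℤ) ≤ p → p ≤ R → (σ x p ∈ C i ↔ σ y p ∈ C i) := by
        intro i p hp1 hp2
        rw [hσ, hσ]
        exact hxy ⟨p, Finset.mem_Icc.2 ⟨hp1, hp2⟩⟩ (Sum.inl i)
      have hA' : ∀ p, -(R : ℤ) ≤ p → p ≤ R → (σ x p ∈ A ↔ σ y p ∈ A) := by
        intro p hp1 hp2
        rw [hσ, hσ]
        have := hxy ⟨p, Finset.mem_Icc.2 ⟨hp1, hp2⟩⟩ (Sum.inr true)
        simpa using this
      have hB' : ∀ p, -(R : ℤ) ≤ p → p ≤ R → (σ x p ∈ B ↔ σ y p ∈ B) := by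
        intro p hp1 hp2
        rw [hσ, hσ]
        have := hxy ⟨p, Finset.mem_Icc.2 ⟨hp1, hp2⟩⟩ (Sum.inr false)
        simpa using this
      obtain ⟨g1, g2, g3⟩ := hx
      refine ⟨?_, ?_, ?_⟩
      · have := (hA' 0 (by omega) (by omega))
        rw [hσ0, hσ0] at this
        exact this.1 g1
      · exact (hB' d hd.1 hd.2).1 g2
      · have e1 : cum (β y) d = cum (β x) d :=
          (cum_congr (fun p hp1 hp2 => ind_congr (hB' p hp1 hp2)) hd.1 hd.2).symm
        have e2 : f y 0 = f x 0 := by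
          show (∑ i, (cum (γ y i) 0 - cum (γ y i) (0 - m i))) / (n : ℤ) =
            (∑ i, (cum (γ x i) 0 - cum (γ x i) (0 - m i))) / (n : ℤ)
          congr 1
          refine Finset.sum_congr rfl fun i _ => ?_
          rw [cum_zero, cum_zero]
          congr 1
          have := hR i
          exact (cum_congr (fun p hp1 hp2 => ind_congr (hC i p hp1 hp2)) (by omega)
            (by omega)).symm
        rw [e1, e2, g3]
  · rintro d x hx
    exact hx.1
  · intro x hx
    have hα0 : α x 0 = 1 := by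
      show ind A (σ x 0) = 1
      rw [hσ0]
      exact ind_eq_one.2 hx
    obtain ⟨y, ⟨hy1, hy2, hy3⟩, hu⟩ := (key x).1 0 hα0
    rw [cum_zero, zero_add] at hy3
    refine ⟨⟨y, Finset.mem_Icc.2 ⟨by linarith [hy1.1], by linarith [hy1.2]⟩⟩,
      ⟨hx, ind_eq_one.1 hy2, hy3⟩, ?_⟩
    rintro ⟨d, hd⟩ ⟨-, hd2, hd3⟩
    have hd' := Finset.mem_Icc.1 hd
    apply Subtype.ext
    refine hu d ⟨⟨by linarith [hd'.1], by linarith [hd'.2]⟩, ind_eq_one.2 hd2, ?_⟩
    rw [cum_zero, zero_add]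
    exact hd3
  · rintro d x ⟨-, hx, -⟩
    rw [← hσ]
    exact hx
  · intro y hy
    have hβ0 : β y 0 = 1 := by
      show ind B (σ y 0) = 1
      rw [hσ0]
      exact ind_eq_one.2 hy
    have hiff : ∀ d : ℤ, (σ y (-d) ∈ A ∧ σ (σ y (-d)) d ∈ B ∧
        cum (β (σ y (-d))) d = f (σ y (-d)) 0) ↔
        (α y (-d) = 1 ∧ cum (β y) 0 = cum (β y) (-d) + f y (-d)) := by
      intro d
      rw [hfs, hβs, hσσ, add_neg_cancel, hσ0]
      constructor
      · rintro ⟨g1, -, g3⟩
        exact ⟨ind_eq_one.2 g1, by linarith⟩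
      · rintro ⟨g1, g3⟩
        exact ⟨ind_eq_one.1 g1, hy, by linarith⟩
    have hneg : ∀ d : ℤ, -(d • t) +ᵥ y = σ y (-d) := by
      intro d
      rw [hσ, neg_zsmul]
    obtain ⟨p, ⟨hp1, hp2⟩, hu⟩ := (key y).2 0 hβ0
    refine ⟨⟨-p, Finset.mem_Icc.2 ⟨by linarith [hp1.2], by linarith [hp1.1]⟩⟩, ?_, ?_⟩
    · show -((-p) • t) +ᵥ y ∈ A ∧ σ (-((-p) • t) +ᵥ y) (-p) ∈ B ∧
        cum (β (-((-p) • t) +ᵥ y)) (-p) = f (-((-p) • t) +ᵥ y) 0
      rw [hneg, hiff, neg_neg]
      exact hp2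
    · rintro ⟨d, hd⟩ hx
      have hx : -(d • t) +ᵥ y ∈ A ∧ σ (-(d • t) +ᵥ y) d ∈ B ∧
        cum (β (-(d • t) +ᵥ y)) d = f (-(d • t) +ᵥ y) 0 := hx
      rw [hneg, hiff] at hx
      have hd' := Finset.mem_Icc.1 hd
      apply Subtype.ext
      show d = -p
      rw [← hu (-d) ⟨⟨by linarith [hd'.2], by linarith [hd'.1]⟩, hx⟩, neg_neg]

end Pool.Agent.Y328.CC.A
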