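import Pool.Agent.H1R3.Canc.Defs

/-!
# The Cancellation Law for all abelian groups: statements of the steps

The definitions `TransInvariant`, `MulEquidec`, `Equidec`, `CancellationLaw` are those of the
starting library `Pool.Agent.H1R3.Canc.Defs`.
-/

set_option autoImplicit false

open scoped Pointwise
open Set Function MeasureTheory
open Pool.Agent.H1R3.Canc

universe u

namespace Pool.Agent.Y328.CC

/-- (Z2) Failure for the group `ℤ × ℤ`. -/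
def S_Z2 : Prop :=
  ∃ 𝒜 : Set (Set (ℤ × ℤ)), IsSetAlgebra 𝒜 ∧ TransInvariant 𝒜 ∧
    ∃ A ∈ 𝒜, ∃ B ∈ 𝒜, MulEquidec 𝒜 2 A B ∧ ¬ Equidec 𝒜 A B

/-- (TOR) Failure for the group `ℤ × ℤ/p`. -/
def S_TOR : Prop :=
  ∀ p : ℕ, p.Prime → ∃ 𝒜 : Set (Set (ℤ × ZMod p)), IsSetAlgebra 𝒜 ∧ TransInvariant 𝒜 ∧
    ∃ A ∈ 𝒜, ∃ B ∈ 𝒜, MulEquidec 𝒜 p A B ∧ ¬ Equidec 𝒜 A B

/-- (CYC) In a torsion-free abelian group of rank one finitely many elements are multiples of one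
element. -/
def S_CYC : Prop :=
  ∀ (X : Type u) [AddCommGroup X], (∀ x : X, x ≠ 0 → ∀ n : ℕ, 0 < n → n • x ≠ 0) →
    (∀ x y : X, ∃ a b : ℤ, (a ≠ 0 ∨ b ≠ 0) ∧ a • x = b • y) →
    ∀ (k : ℕ) (g : Fin k → X), ∃ t : X, ∀ i, ∃ m : ℤ, g i = m • t

/-- (LOC) Sets which are determined by finitely many translates of finitely many sets of the
algebra are in the algebra. -/
def S_LOC : Prop :=
  ∀ (X : Type u) [AddCommGroup X] (𝒜 : Set (Set X)), IsSetAlgebra 𝒜 → TransInvariant 𝒜 →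
    ∀ (κ ι : Type) [Finite κ] [Finite ι] (h : κ → X) (E : ι → Set X), (∀ e, E e ∈ 𝒜) →
    ∀ P : Set X, (∀ x y : X, (∀ f e, x + h f ∈ E e ↔ y + h f ∈ E e) → (x ∈ P → y ∈ P)) → P ∈ 𝒜

/-- (SEQ) The order preserving matching. The functions `α`, `β` are the indicator functions of two
sets of integers, `f` is the flow. -/
def S_SEQ : Prop :=
  ∀ (α β Ac Bc f : ℤ → ℤ) (R : ℕ), (∀ i, α i = 0 ∨ α i = 1) → (∀ i, β i = 0 ∨ β i = 1) →
    (∀ i, Ac (i + 1) = Ac i + α i) → (∀ i, Bc (i + 1) = Bc i + β i) →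
    (∀ i, f (i + 1) - f i = α i - β i) →
    (∀ i, Ac i - Ac (i + R) ≤ f i) → (∀ i, f i ≤ Ac i - Ac (i - R)) →
    (∀ x, α x = 1 → ∃! y, (x - R ≤ y ∧ y ≤ x + R) ∧ β y = 1 ∧ Bc y = Bc x + f x) ∧
    ∀ y, β y = 1 → ∃! x, (y - R ≤ x ∧ x ≤ y + R) ∧ α x = 1 ∧ Bc y = Bc x + f x

end Pool.Agent.Y328.CC
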