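import Pool.Agent.Y328.CC.Act2
import Pool.Agent.Y328.CC.PosA
import Pool.Agent.Y328.CC.LocA
import Pool.Agent.Y814.CC.Seq
import Pool.Agent.Y970.CC.TRA
import Pool.Agent.Y917.CC.FIN
import Pool.Agent.H1R3.Canc.Rank

/-!
# The Cancellation Law for actions of all groups: assembly
-/

set_option autoImplicit false

open scoped Pointwise
open Set Function MeasureTheory

universe u v

namespace Pool.Agent.Y328.CC.Gen

/-- Every finitely generated subgroup is finite or cyclic. -/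
def LocFinOrCyclic (G : Type u) [AddGroup G] : Prop :=
  ∀ H : AddSubgroup G, H.FG → Finite H ∨ IsAddCyclic H

/-! ### The law holds -/

theorem law_of {G : Type u} {X : Type v} [AddGroup G] [AddAction G X]
    (hG : LocFinOrCyclic G) {𝒜 : Set (Set X)} (h𝒜 : IsSetAlgebra 𝒜) (hinv : Inv G 𝒜) :
    Law G 𝒜 := by
  intro A hA B hB n hn hmul
  obtain ⟨k, C, g, js, ms, h1, h2, h3, h4, h5, h6⟩ := hmul
  have hfg : (AddSubgroup.closure (range g)).FG :=
    ⟨(Set.finite_range g).toFinset, by rw [Set.Finite.coe_toFinset]⟩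
  have hg : ∀ i, g i ∈ AddSubgroup.closure (range g) := fun i =>
    AddSubgroup.subset_closure ⟨i, rfl⟩
  rcases hG _ hfg with hf | hc
  · exact Y917.CC.t_FIN G X 𝒜 h𝒜 hinv _ hf A hA B hB n k hn C g js ms hg h1 h3 h4 h5 h6
  · obtain ⟨⟨t, ht⟩, hgen⟩ := hc.exists_generator
    have hm : ∀ i, ∃ m : ℤ, g i = m • t := by
      intro i
      obtain ⟨m, hm⟩ := AddSubgroup.mem_zmultiples_iff.1 (hgen ⟨g i, hg i⟩)
      exact ⟨m, (congrArg Subtype.val hm).symm⟩
    choose m hm using hm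
    obtain rfl : g = fun i => m i • t := funext hm
    exact Pool.Agent.Y328.CC.A.pos Pool.Agent.Y328.CC.A.t_LOCA Y814.CC.t_SEQ h𝒜 hinv t hA hB hn C
      m js ms h1 h3 h4 h5 h6

theorem not_fails_of_law {G : Type u} {X : Type v} [AddGroup G] [AddAction G X]
    (h : ∀ 𝒜 : Set (Set X), IsSetAlgebra 𝒜 → Inv G 𝒜 → Law G 𝒜) {n : ℕ} (hn : 1 ≤ n) :
    ¬ Fails G X n := by
  rintro ⟨𝒜, h1, h2, A, hA, B, hB, h3, h4⟩
  exact h4 (h 𝒜 h1 h2 A hA B hB n hn h3)

/-! ### The law fails -/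

theorem fib_card {H : Type u} [AddGroup H] (c : H) (m : ℕ) (hm : 0 < m)
    (hc : ∀ k : ℤ, k • c = 0 → (m : ℤ) ∣ k)
    (hle : AddSubgroup.zmultiples (m • c) ≤ AddSubgroup.zmultiples c)
    (y : H ⧸ AddSubgroup.zmultiples c) :
    Nat.card {z : H ⧸ AddSubgroup.zmultiples (m • c) //
      AddSubgroup.quotientMapOfLE hle z = y} = m := by
  obtain ⟨g, rfl⟩ := QuotientAddGroup.mk_surjective y
  let F : Fin m → {z : H ⧸ AddSubgroup.zmultiples (m • c) //
      AddSubgroup.quotientMapOfLE hle z = (g : H ⧸ AddSubgroup.zmultiples c)} := fun i =>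
    ⟨((g + (i : ℕ) • c : H) : H ⧸ AddSubgroup.zmultiples (m • c)), by
      rw [AddSubgroup.quotientMapOfLE_apply_mk, QuotientAddGroup.eq, neg_add_rev, add_assoc,
        neg_add_cancel, add_zero]
      exact neg_mem (AddSubgroup.nsmul_mem_zmultiples c _)⟩
  have hF : Bijective F := by
    constructor
    · intro i j hij
      have h1 := congrArg Subtype.val hij
      have h2 : -(g + (i : ℕ) • c) + (g + (j : ℕ) • c) ∈ AddSubgroup.zmultiples (m • c) :=
        QuotientAddGroup.eq.1 h1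
      rw [neg_add_rev, add_assoc, neg_add_cancel_left] at h2
      obtain ⟨k, hk⟩ := AddSubgroup.mem_zmultiples_iff.1 h2
      have h3 : (((j : ℕ) : ℤ) - ((i : ℕ) : ℤ) - k * (m : ℤ)) • c = 0 := by
        have e1 : k • (m • c) = (k * (m : ℤ)) • c := by
          rw [mul_zsmul, natCast_zsmul]
        have e2 : -((i : ℕ) • c) + (j : ℕ) • c = (((j : ℕ) : ℤ) - ((i : ℕ) : ℤ)) • c := by
          rw [← natCast_zsmul, ← natCast_zsmul, ← neg_zsmul, ← add_zsmul]
          congr 1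
          ring
        rw [sub_zsmul, ← e1, hk, e2, add_neg_cancel]
      have h4 := hc _ h3
      have h5 : (m : ℤ) ∣ ((j : ℕ) : ℤ) - ((i : ℕ) : ℤ) := by
        have := dvd_add h4 (Dvd.intro_left k rfl : (m : ℤ) ∣ k * m)
        simpa using this
      have hi := i.2
      have hj := j.2
      apply Fin.ext
      have h6 := Int.eq_zero_of_abs_lt_dvd h5 (by rw [abs_lt]; constructor <;> omega)
      omega
    · rintro ⟨z, hz⟩
      obtain ⟨h, rfl⟩ := QuotientAddGroup.mk_surjective z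
      rw [AddSubgroup.quotientMapOfLE_apply_mk, QuotientAddGroup.eq] at hz
      obtain ⟨k, hk⟩ := AddSubgroup.mem_zmultiples_iff.1 hz
      have hm' : (0 : ℤ) < m := by exact_mod_cast hm
      have hmod := Int.emod_nonneg (-k) hm'.ne'
      have hlt := Int.emod_lt_of_pos (-k) hm'
      refine ⟨⟨((-k) % m).toNat, by omega⟩, ?_⟩
      apply Subtype.ext
      show ((g + ((-k) % m).toNat • c : H) : H ⧸ AddSubgroup.zmultiples (m • c)) = (h : H)
      rw [QuotientAddGroup.eq, neg_add_rev, add_assoc]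
      have hgh : -g + h = (-k) • c := by
        rw [neg_zsmul, hk, neg_add_rev, neg_neg]
      rw [hgh]
      refine AddSubgroup.mem_zmultiples_iff.2 ⟨(-k) / m, ?_⟩
      have e1 : ((-k) / (m : ℤ)) • (m • c) = (((-k) / (m : ℤ)) * (m : ℤ)) • c := by
        rw [mul_zsmul, natCast_zsmul]
      have e3 : ((((-k) % m).toNat : ℕ) : ℤ) = (-k) % m := Int.toNat_of_nonneg hmod
      rw [e1, ← natCast_zsmul, e3, ← neg_zsmul, ← add_zsmul]
      congr 1
      have := Int.emod_add_mul_ediv (-k) m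
      linarith
  rw [← Nat.card_eq_of_bijective F hF, Nat.card_eq_fintype_card, Fintype.card_fin]

theorem fails_idx (hIDX : S_IDX.{u, u}) (hRAY : S_RAY.{u, u}) (hPULL : S_PULL.{u, u, u})
    {H : Type u} [AddGroup H] (hH : AddGroup.FG H) (c : H) (m : ℕ) (hm : 2 ≤ m)
    (hc : ∀ k : ℤ, k • c = 0 → (m : ℤ) ∣ k) (hinf : Infinite (H ⧸ AddSubgroup.zmultiples c)) :
    Fails H H m := by
  have hle : AddSubgroup.zmultiples (m • c) ≤ AddSubgroup.zmultiples c := by
    rw [AddSubgroup.zmultiples_le]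
    exact AddSubgroup.nsmul_mem_zmultiples c m
  obtain ⟨S, r, hr, hS⟩ := hRAY H (H ⧸ AddSubgroup.zmultiples c) hH
  have h1 := hIDX H (H ⧸ AddSubgroup.zmultiples (m • c)) (H ⧸ AddSubgroup.zmultiples c)
    (AddSubgroup.quotientMapOfLE hle) (fun g z => by
      obtain ⟨h, rfl⟩ := QuotientAddGroup.mk_surjective z
      rfl) m hm (fib_card c m (by omega) hc hle) S r hr hS
  exact hPULL H H (H ⧸ AddSubgroup.zmultiples (m • c)) (fun h => (h : H))
    QuotientAddGroup.mk_surjective (fun g x => rfl) m h1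

theorem fails_torsionfree (hIDX : S_IDX.{u, u}) (hRAY : S_RAY.{u, u})
    (hPULL : S_PULL.{u, u, u}) (hVZ : S_VZ.{u}) {H : Type u} [AddGroup H] (hH : AddGroup.FG H)
    (htf : ∀ x : H, x ≠ 0 → ∀ n : ℕ, 0 < n → n • x ≠ 0) (hcyc : ¬ IsAddCyclic H) (m : ℕ)
    (hm : 2 ≤ m) : Fails H H m := by
  have hne : ∃ c : H, c ≠ 0 := by
    by_contra hcon
    push Not at hcon
    have : Subsingleton H := ⟨fun a b => by rw [hcon a, hcon b]⟩
    exact hcyc isAddCyclic_of_subsingleton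
  obtain ⟨c, hc⟩ := hne
  refine fails_idx hIDX hRAY hPULL hH c m hm ?_ ?_
  · intro k hk
    have hk0 : k = 0 := by
      by_contra hne
      have h1 : k.natAbs • c = 0 := by
        rcases Int.natAbs_eq k with e | e
        · rw [e, natCast_zsmul] at hk
          exact hk
        · rw [e, neg_zsmul, neg_eq_zero, natCast_zsmul] at hk
          exact hk
      exact htf c hc _ (Int.natAbs_pos.2 hne) h1
    rw [hk0]
    exact dvd_zero _
  · rw [← AddSubgroup.index_eq_zero_iff_infinite]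
    by_contra hne
    exact hcyc (hVZ H htf c hne)

theorem exists_prime_order {H : Type u} [AddGroup H] {x : H} (hx : x ≠ 0) {n : ℕ} (hn : 0 < n)
    (hnx : n • x = 0) : ∃ (p : ℕ) (s : H), p.Prime ∧ s ≠ 0 ∧ p • s = 0 := by
  have hfin : IsOfFinAddOrder x := isOfFinAddOrder_iff_nsmul_eq_zero.2 ⟨n, hn, hnx⟩
  have hpos := hfin.addOrderOf_pos
  have hne1 : addOrderOf x ≠ 1 := fun h1 => hx (AddMonoid.addOrderOf_eq_one_iff.1 h1)
  obtain ⟨p, hp, hpd⟩ := Nat.exists_prime_and_dvd hne1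
  obtain ⟨m, hm⟩ := hpd
  have hm0 : 0 < m := by
    rcases Nat.eq_zero_or_pos m with h | h
    · rw [hm, h, mul_zero] at hpos
      exact absurd hpos (lt_irrefl _)
    · exact h
  have hs : m • x ≠ 0 := by
    intro h1
    have h2 := addOrderOf_dvd_of_nsmul_eq_zero h1
    have h3 := Nat.le_of_dvd hm0 h2
    have h4 := hp.two_le
    rw [hm] at h3
    nlinarith
  have hps : p • (m • x) = 0 := by
    rw [← mul_nsmul', ← hm]
    exact addOrderOf_nsmul_eq_zero x
  exact ⟨p, m • x, hp, hs, hps⟩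

theorem fails_torsion (hIDX : S_IDX.{u, u}) (hRAY : S_RAY.{u, u}) (hPULL : S_PULL.{u, u, u})
    {H : Type u} [AddGroup H] (hH : AddGroup.FG H) (hinf : Infinite H) {p : ℕ} {s : H}
    (hp : p.Prime) (hs : s ≠ 0) (hps : p • s = 0) : Fails H H p := by
  have : Fact p.Prime := ⟨hp⟩
  have hord : addOrderOf s = p := addOrderOf_eq_prime hps hs
  refine fails_idx hIDX hRAY hPULL hH s p hp.two_le ?_ ?_
  · intro k hk
    rw [← hord]
    exact addOrderOf_dvd_iff_zsmul_eq_zero.2 hk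
  · by_contra hcon
    rw [not_infinite_iff_finite] at hcon
    have hfin : Finite (AddSubgroup.zmultiples s) := by
      have : IsOfFinAddOrder s := isOfFinAddOrder_iff_nsmul_eq_zero.2 ⟨p, hp.pos, hps⟩
      exact finite_zmultiples.2 this
    have := Finite.of_equiv _ (AddSubgroup.addGroupEquivQuotientProdAddSubgroup
      (s := AddSubgroup.zmultiples s)).symm
    exact not_finite H

/-- the dichotomy for finitely generated subgroups -/
theorem fails_of_subgroup (hIDX : S_IDX.{u, u}) (hRAY : S_RAY.{u, u})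
    (hPULL : S_PULL.{u, u, u}) (hVZ : S_VZ.{u}) {G : Type u} {X : Type v} [AddGroup G]
    [AddAction G X] (x₀ : X) (h0 : ∀ g : G, g +ᵥ x₀ = x₀ → g = 0) (H : AddSubgroup G)
    (hH : H.FG) (hinf : Infinite H) (hcyc : ¬ IsAddCyclic H) :
    ∃ m : ℕ, 2 ≤ m ∧ Fails G X m := by
  have hFG : AddGroup.FG H := (AddGroup.fg_iff_addSubgroup_fg H).2 hH
  by_cases htf : ∀ x : H, x ≠ 0 → ∀ n : ℕ, 0 < n → n • x ≠ 0
  · exact ⟨2, le_rfl, Y970.CC.t_TRA H G X H.subtype (AddSubgroup.subtype_injective H) x₀ h0 2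
      (fails_torsionfree hIDX hRAY hPULL hVZ hFG htf hcyc 2 le_rfl)⟩
  · push Not at htf
    obtain ⟨x, hx, n, hn, hnx⟩ := htf
    obtain ⟨p, s, hp, hs, hps⟩ := exists_prime_order hx hn hnx
    exact ⟨p, hp.two_le, Y970.CC.t_TRA H G X H.subtype (AddSubgroup.subtype_injective H) x₀ h0 p
      (fails_torsion hIDX hRAY hPULL hFG hinf hp hs hps)⟩

theorem iff_main (hIDX : S_IDX.{u, u}) (hRAY : S_RAY.{u, u})
    (hPULL : S_PULL.{u, u, u}) (hVZ : S_VZ.{u}) {G : Type u} {X : Type v} [AddGroup G]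
    [AddAction G X] (x₀ : X) (h0 : ∀ g : G, g +ᵥ x₀ = x₀ → g = 0) :
    (∀ 𝒜 : Set (Set X), IsSetAlgebra 𝒜 → Inv G 𝒜 → Law G 𝒜) ↔ LocFinOrCyclic G := by
  constructor
  · intro h H hH
    by_contra hcon
    push Not at hcon
    obtain ⟨m, hm, hf⟩ := fails_of_subgroup hIDX hRAY hPULL hVZ x₀ h0 H hH
      hcon.1 hcon.2
    exact not_fails_of_law h (by omega) hf
  · intro h 𝒜 h1 h2
    exact law_of h h1 h2

/-! ### The group `ℤ²` -/

theorem not_cyclic_Z2 : ¬ IsAddCyclic (ℤ × ℤ) := by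
  intro h
  obtain ⟨⟨a, b⟩, hgen⟩ := h.exists_generator
  obtain ⟨m, hm⟩ := AddSubgroup.mem_zmultiples_iff.1 (hgen (1, 0))
  obtain ⟨n, hn⟩ := AddSubgroup.mem_zmultiples_iff.1 (hgen (0, 1))
  simp only [Prod.smul_mk, smul_eq_mul, Prod.mk.injEq] at hm hn
  obtain ⟨hm1, hm2⟩ := hm
  obtain ⟨hn1, hn2⟩ := hn
  rcases mul_eq_zero.1 hm2 with h | h
  · rw [h] at hm1
    simp at hm1
  · rw [h] at hn2
    simp at hn2

theorem tf_Z2 (x : ℤ × ℤ) (hx : x ≠ 0) (n : ℕ) (hn : 0 < n) : n • x ≠ 0 := by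
  intro h
  exact hx ((smul_eq_zero.1 h).resolve_left hn.ne')

theorem fails_Z2 (hIDX : S_IDX.{0, 0}) (hRAY : S_RAY.{0, 0})
    (hPULL : S_PULL.{0, 0, 0}) (hVZ : S_VZ.{0}) {G : Type u} {X : Type v} [AddGroup G]
    [AddAction G X] (x₀ : X) (h0 : ∀ g : G, g +ᵥ x₀ = x₀ → g = 0) (j : ℤ × ℤ →+ G)
    (hj : Injective j) (m : ℕ) (hm : 2 ≤ m) : Fails G X m :=
  Y970.CC.t_TRA (ℤ × ℤ) G X j hj x₀ h0 m (fails_torsionfree hIDX hRAY hPULL hVZ
    inferInstance tf_Z2 not_cyclic_Z2 m hm)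

theorem Z2_of_compact {X : Type u} [AddGroup X] [TopologicalSpace X] [IsTopologicalAddGroup X]
    [CompactSpace X] [T2Space X] (x : X) (hx : ∀ n : ℕ, 0 < n → n • x ≠ 0) :
    ∃ j : ℤ × ℤ →+ X, Injective j := by
  classical
  let Z : AddSubgroup X := (AddSubgroup.zmultiples x).topologicalClosure
  have hcomp : CompactSpace Z :=
    isCompact_iff_compactSpace.1 (AddSubgroup.isClosed_topologicalClosure _).isCompact
  have htg : IsTopologicalAddGroup Z := inferInstance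
  have ht2 : T2Space Z := inferInstance
  let inst : AddCommGroup Z := AddSubgroup.addCommGroupTopologicalClosure
    (AddSubgroup.zmultiples x)
    (fun a b => by
      obtain ⟨m, hm⟩ := AddSubgroup.mem_zmultiples_iff.1 a.2
      obtain ⟨n, hn⟩ := AddSubgroup.mem_zmultiples_iff.1 b.2
      apply Subtype.ext
      show (a : X) + b = b + a
      rw [← hm, ← hn, ← add_zsmul, ← add_zsmul, add_comm])
  have hxZ : x ∈ Z := AddSubgroup.le_topologicalClosure _ (AddSubgroup.mem_zmultiples x)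
  have hne : ¬ ∃ n : ℕ, 0 < n ∧ ∀ z : Z, n • z = 0 := by
    rintro ⟨n, hn, hz⟩
    apply hx n hn
    have h1 := congrArg Subtype.val (hz ⟨x, hxZ⟩)
    exact h1
  obtain ⟨j, hj⟩ := @Pool.Agent.H1R3.Canc.exists_injective_int3 Z inst _ htg hcomp ht2 hne
  let j' : ℤ × ℤ →+ X :=
    { toFun := fun p => ((j (p.1, p.2, 0) : Z) : X)
      map_zero' := by
        have h1 : j ((0 : ℤ × ℤ).1, (0 : ℤ × ℤ).2, 0) = 0 := map_zero j
        rw [h1]
        rfl
      map_add' := by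
        intro p q
        have h1 : (((p + q).1, (p + q).2, 0) : ℤ × ℤ × ℤ) = (p.1, p.2, 0) + (q.1, q.2, 0) := by
          simp
        rw [h1, map_add]
        rfl }
  refine ⟨j', ?_⟩
  intro p q h
  have h1 : j (p.1, p.2, 0) = j (q.1, q.2, 0) := Subtype.ext h
  have h2 := hj h1
  rw [Prod.mk.injEq, Prod.mk.injEq] at h2
  exact Prod.ext h2.1 h2.2.1

theorem triv {X : Type u} [AddGroup X] (g : X) (h : g +ᵥ (0 : X) = 0) : g = 0 := by
  rwa [vadd_eq_add, add_zero] at h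

end Pool.Agent.Y328.CC.Gen
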