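import Pool.Agent.Y328.CC.Stm

/-!
# The Cancellation Law holds if all translations are multiples of one element
-/

set_option autoImplicit false

open scoped Pointwise
open Set Function MeasureTheory
open Pool.Agent.H1R3.Canc

universe u

namespace Pool.Agent.Y328.CC

section cum

/-- signed sums -/
noncomputable def cum (γ : ℤ → ℤ) (b : ℤ) : ℤ := ∑ p ∈ Finset.Ico 0 b, γ p - ∑ p ∈ Finset.Ico b 0, γ p

theorem cum_zero (γ : ℤ → ℤ) : cum γ 0 = 0 := by
  simp [cum]

theorem cum_succ (γ : ℤ → ℤ) (b : ℤ) : cum γ (b + 1) = cum γ b + γ b := by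
  unfold cum
  rcases le_or_gt 0 b with h | h
  · have h1 : Finset.Ico 0 (b + 1) = insert b (Finset.Ico 0 b) := by
      ext x
      simp only [Finset.mem_Ico, Finset.mem_insert]
      omega
    have h2 : Finset.Ico (b + 1) 0 = ∅ := Finset.Ico_eq_empty (by omega)
    have h3 : Finset.Ico b 0 = ∅ := Finset.Ico_eq_empty (by omega)
    rw [h1, h2, h3, Finset.sum_insert (by simp)]
    simp only [Finset.sum_empty]
    ring
  · have h1 : Finset.Ico b 0 = insert b (Finset.Ico (b + 1) 0) := by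
      ext x
      simp only [Finset.mem_Ico, Finset.mem_insert]
      omega
    have h2 : Finset.Ico 0 (b + 1) = ∅ := Finset.Ico_eq_empty (by omega)
    have h3 : Finset.Ico 0 b = ∅ := Finset.Ico_eq_empty (by omega)
    rw [h1, h2, h3, Finset.sum_insert (by simp)]
    simp only [Finset.sum_empty]
    ring

theorem cum_unique {γ G : ℤ → ℤ} (h : ∀ b, G (b + 1) = G b + γ b) (b : ℤ) :
    cum γ b = G b - G 0 := by
  induction b using Int.induction_on with
  | zero => rw [cum_zero, sub_self]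
  | succ i ih =>
    rw [cum_succ, h, ih]
    ring
  | pred i ih =>
    have h1 := cum_succ γ (-(i : ℤ) - 1)
    have h2 := h (-(i : ℤ) - 1)
    rw [sub_add_cancel] at h1 h2
    rw [ih] at h1
    linarith

theorem cum_shift (γ : ℤ → ℤ) (s b : ℤ) :
    cum (fun p => γ (p + s)) b = cum γ (b + s) - cum γ s := by
  have := cum_unique (γ := fun p => γ (p + s)) (G := fun b => cum γ (b + s)) (fun b => by
    show cum γ (b + 1 + s) = cum γ (b + s) + γ (b + s)
    rw [← cum_succ]
    congr 1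
    ring) b
  rw [this]
  show cum γ (b + s) - cum γ (0 + s) = _
  rw [zero_add]

theorem cum_mono {γ : ℤ → ℤ} (h : ∀ p, 0 ≤ γ p) : Monotone (cum γ) := by
  apply monotone_int_of_le_succ
  intro b
  rw [cum_succ]
  have := h b
  linarith

theorem cum_sum {k : ℕ} (γ : Fin k → ℤ → ℤ) (b : ℤ) :
    ∑ i, cum (γ i) b = cum (fun p => ∑ i, γ i p) b := by
  rw [cum_unique (γ := fun p => ∑ i, γ i p) (G := fun b => ∑ i, cum (γ i) b) (fun b => by
    show ∑ i, cum (γ i) (b + 1) = ∑ i, cum (γ i) b + ∑ i, γ i b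
    rw [← Finset.sum_add_distrib]
    exact Finset.sum_congr rfl fun i _ => cum_succ _ _) b]
  simp [cum_zero]

theorem cum_mul (n : ℤ) (α : ℤ → ℤ) (b : ℤ) : cum (fun p => n * α p) b = n * cum α b := by
  rw [cum_unique (γ := fun p => n * α p) (G := fun b => n * cum α b) (fun b => by
    show n * cum α (b + 1) = n * cum α b + n * α b
    rw [cum_succ]
    ring) b, cum_zero]
  ring

theorem cum_congr {γ γ' : ℤ → ℤ} {R b : ℤ} (h : ∀ p, -R ≤ p → p ≤ R → γ p = γ' p) (h1 : -R ≤ b)
    (h2 : b ≤ R) : cum γ b = cum γ' b := by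
  unfold cum
  congr 1
  · refine Finset.sum_congr rfl fun p hp => ?_
    rw [Finset.mem_Ico] at hp
    exact h p (by omega) (by omega)
  · refine Finset.sum_congr rfl fun p hp => ?_
    rw [Finset.mem_Ico] at hp
    exact h p (by omega) (by omega)

/-- the flow -/
theorem flow (hSEQ : S_SEQ) {k : ℕ} (γ : Fin k → ℤ → ℤ) (α β : ℤ → ℤ) (m : Fin k → ℤ) (n : ℤ)
    (R : ℕ) (hn : 0 < n) (hγ : ∀ i p, 0 ≤ γ i p) (hα : ∀ i, α i = 0 ∨ α i = 1)
    (hβ : ∀ i, β i = 0 ∨ β i = 1) (hA : ∀ p, ∑ i, γ i p = n * α p)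
    (hB : ∀ p, ∑ i, γ i (p - m i) = n * β p) (hm : ∀ i, -(R : ℤ) ≤ m i ∧ m i ≤ R)
    (f : ℤ → ℤ) (hf : ∀ s, f s = (∑ i, (cum (γ i) s - cum (γ i) (s - m i))) / n) :
    (∀ x, α x = 1 → ∃! y, (x - R ≤ y ∧ y ≤ x + R) ∧ β y = 1 ∧ cum β y = cum β x + f x) ∧
    ∀ y, β y = 1 → ∃! x, (y - R ≤ x ∧ x ≤ y + R) ∧ α x = 1 ∧ cum β y = cum β x + f x := by
  have hsum : ∀ s, ∑ i, cum (γ i) s = n * cum α s := by
    intro s
    rw [cum_sum, ← cum_mul]
    congr 1
    funext p
    exact hA p
  refine hSEQ α β (cum α) (cum β) f R hα hβ (cum_succ α) (cum_succ β) ?_ ?_ ?_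
  · intro s
    have h1 : ∑ i, (cum (γ i) (s + 1) - cum (γ i) (s + 1 - m i)) =
        ∑ i, (cum (γ i) s - cum (γ i) (s - m i)) + n * (α s - β s) := by
      rw [mul_sub, ← hA, ← hB, ← Finset.sum_sub_distrib, ← Finset.sum_add_distrib]
      refine Finset.sum_congr rfl fun i _ => ?_
      have e : s + 1 - m i = s - m i + 1 := by ring
      rw [e, cum_succ, cum_succ]
      ring
    rw [hf, hf, h1, Int.add_mul_ediv_left _ _ hn.ne']
    ring
  · intro s
    rw [hf]
    apply Int.le_ediv_of_mul_le hn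
    have h1 : (cum α s - cum α (s + R)) * n =
        ∑ i, (cum (γ i) s - cum (γ i) (s + R)) := by
      rw [Finset.sum_sub_distrib, hsum, hsum]
      ring
    rw [h1]
    refine Finset.sum_le_sum fun i _ => ?_
    have := cum_mono (hγ i) (show s - m i ≤ s + R by have := (hm i).1; linarith)
    linarith
  · intro s
    rw [hf]
    apply Int.ediv_le_of_le_mul hn
    have h1 : (cum α s - cum α (s - R)) * n =
        ∑ i, (cum (γ i) s - cum (γ i) (s - R)) := by
      rw [Finset.sum_sub_distrib, hsum, hsum]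
      ring
    rw [h1]
    refine Finset.sum_le_sum fun i _ => ?_
    have := cum_mono (hγ i) (show s - R ≤ s - m i by have := (hm i).2; linarith)
    linarith

end cum

section count

variable {X : Type u} [AddCommGroup X]

open Classical in
/-- indicator function -/
noncomputable def ind (S : Set X) (x : X) : ℤ := if x ∈ S then 1 else 0

theorem ind_01 (S : Set X) (x : X) : ind S x = 0 ∨ ind S x = 1 := by
  unfold ind
  split_ifs
  · exact Or.inr rfl
  · exact Or.inl rfl

theorem ind_eq_one {S : Set X} {x : X} : ind S x = 1 ↔ x ∈ S := by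
  unfold ind
  split_ifs with h
  · simp [h]
  · simp [h]

theorem ind_congr {S T : Set X} {x y : X} (h : x ∈ S ↔ y ∈ T) : ind S x = ind T y := by
  unfold ind
  by_cases hx : x ∈ S
  · rw [if_pos hx, if_pos (h.1 hx)]
  · rw [if_neg hx, if_neg (fun hy => hx (h.2 hy))]

theorem cntA {k n : ℕ} {A : Set X} {C : Fin k → Set X} {js : Fin k → Fin n}
    (h3 : Pairwise (Disjoint on fun i => C i ×ˢ ({js i} : Set (Fin n))))
    (h4 : (⋃ i, C i ×ˢ ({js i} : Set (Fin n))) = A ×ˢ (univ : Set (Fin n))) (x : X) :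
    ∑ i, ind (C i) x = n * ind A x := by
  classical
  have hx : ∀ l : Fin n, (∑ i, if js i = l then ind (C i) x else 0) = ind A x := by
    intro l
    by_cases hxA : x ∈ A
    · rw [ind_eq_one.2 hxA]
      have : ((x, l) : X × Fin n) ∈ (⋃ i, C i ×ˢ ({js i} : Set (Fin n))) := by
        rw [h4]; exact ⟨hxA, trivial⟩
      obtain ⟨i, hi⟩ := mem_iUnion.mp this
      rw [Finset.sum_eq_single i, if_pos hi.2.symm, ind_eq_one.2 hi.1]
      · intro i' _ hne
        by_cases hj : js i' = l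
        · rw [if_pos hj]
          rcases ind_01 (C i') x with h | h
          · exact h
          · exfalso
            exact Set.disjoint_left.mp (h3 hne) (show (x, l) ∈ C i' ×ˢ ({js i'} : Set (Fin n)) from
              ⟨ind_eq_one.1 h, hj.symm⟩) hi
        · rw [if_neg hj]
      · simp
    · have h0 : ind A x = 0 := by
        rcases ind_01 A x with h | h
        · exact h
        · exact absurd (ind_eq_one.1 h) hxA
      rw [h0]
      apply Finset.sum_eq_zero
      intro i _
      by_cases hj : js i = l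
      · rw [if_pos hj]
        rcases ind_01 (C i) x with h | h
        · exact h
        · exfalso
          have : ((x, l) : X × Fin n) ∈ A ×ˢ (univ : Set (Fin n)) := by
            rw [← h4]; exact mem_iUnion.mpr ⟨i, ind_eq_one.1 h, hj.symm⟩
          exact hxA this.1
      · rw [if_neg hj]
  have hsum : ∑ l : Fin n, (∑ i, if js i = l then ind (C i) x else 0) = ∑ i, ind (C i) x := by
    rw [Finset.sum_comm]
    refine Finset.sum_congr rfl fun i _ => ?_
    rw [Finset.sum_ite_eq]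
    simp
  rw [← hsum, Finset.sum_congr rfl (fun l _ => hx l)]
  simp

end count

theorem pos (hLOC : S_LOC.{u}) (hSEQ : S_SEQ) {X : Type u} [AddCommGroup X] {𝒜 : Set (Set X)}
    (h𝒜 : IsSetAlgebra 𝒜) (hinv : TransInvariant 𝒜) (t : X) {A B : Set X} (hA : A ∈ 𝒜)
    (hB : B ∈ 𝒜) {n : ℕ} (hn : 1 ≤ n) {k : ℕ} (C : Fin k → Set X) (m : Fin k → ℤ)
    (js ms : Fin k → Fin n) (h1 : ∀ i, C i ∈ 𝒜)
    (h3 : Pairwise (Disjoint on fun i => C i ×ˢ ({js i} : Set (Fin n))))
    (h4 : (⋃ i, C i ×ˢ ({js i} : Set (Fin n))) = A ×ˢ (univ : Set (Fin n)))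
    (h5 : Pairwise (Disjoint on fun i => ((m i • t) +ᵥ C i) ×ˢ ({ms i} : Set (Fin n))))
    (h6 : (⋃ i, ((m i • t) +ᵥ C i) ×ˢ ({ms i} : Set (Fin n))) = B ×ˢ (univ : Set (Fin n))) :
    Equidec 𝒜 A B := by
  classical
  -- the bound for the translations
  obtain ⟨R, hR⟩ : ∃ R : ℕ, ∀ i, -(R : ℤ) ≤ m i ∧ m i ≤ R := by
    refine ⟨∑ i, (m i).natAbs, fun i => ?_⟩
    have h := Finset.single_le_sum (f := fun i => (m i).natAbs) (fun _ _ => Nat.zero_le _)
      (Finset.mem_univ i)
    have h' : (m i).natAbs ≤ ∑ i, (m i).natAbs := h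
    omega
  -- the sequences at a base point
  let γ : X → Fin k → ℤ → ℤ := fun x i p => ind (C i) (x + p • t)
  let α : X → ℤ → ℤ := fun x p => ind A (x + p • t)
  let β : X → ℤ → ℤ := fun x p => ind B (x + p • t)
  let f : X → ℤ → ℤ := fun x s => (∑ i, (cum (γ x i) s - cum (γ x i) (s - m i))) / (n : ℤ)
  have hγ : ∀ x i p, 0 ≤ γ x i p := by
    intro x i p
    rcases ind_01 (C i) (x + p • t) with h | h
    · exact h.ge
    · show 0 ≤ ind (C i) (x + p • t)
      rw [h]
      norm_num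
  have hcA : ∀ x p, ∑ i, γ x i p = n * α x p := fun x p => cntA h3 h4 _
  have hcB : ∀ x p, ∑ i, γ x i (p - m i) = n * β x p := by
    intro x p
    have h := cntA (C := fun i => (m i • t) +ᵥ C i) h5 h6 (x + p • t)
    rw [← h]
    refine Finset.sum_congr rfl fun i _ => ?_
    show ind (C i) _ = ind _ _
    have e : x + (p - m i) • t = x + p • t - m i • t := by
      rw [sub_smul]
      abel
    rw [e]
    exact ind_congr mem_vadd_iff.symm
  have key := fun x => flow hSEQ (γ x) (α x) (β x) m n R (by exact_mod_cast hn) (hγ x)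
    (fun i => ind_01 _ _) (fun i => ind_01 _ _) (hcA x) (hcB x) hR (f x) (fun s => rfl)
  -- the pieces
  let D : Finset.Icc (-(R : ℤ)) R → Set X := fun d =>
    {x | x ∈ A ∧ x + (d : ℤ) • t ∈ B ∧ cum (β x) d = f x 0}
  have hsh : ∀ (x : X) (s p : ℤ), x + s • t + p • t = x + (p + s) • t := by
    intro x s p
    rw [add_smul]
    abel
  have hβs : ∀ (x : X) (s b : ℤ), cum (β (x + s • t)) b = cum (β x) (b + s) - cum (β x) s := by
    intro x s b
    rw [← cum_shift]
    congr 1
    funext p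
    show ind B _ = ind B _
    rw [hsh]
  have hfs : ∀ (x : X) (s : ℤ), f (x + s • t) 0 = f x s := by
    intro x s
    show (∑ i, (cum (γ (x + s • t) i) 0 - cum (γ (x + s • t) i) (0 - m i))) / (n : ℤ) = _ / (n : ℤ)
    congr 1
    refine Finset.sum_congr rfl fun i _ => ?_
    have e : ∀ b, cum (γ (x + s • t) i) b = cum (γ x i) (b + s) - cum (γ x i) s := by
      intro b
      rw [← cum_shift]
      congr 1
      funext p
      show ind (C i) _ = ind (C i) _
      rw [hsh]
    rw [e, e, zero_add]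
    have e2 : 0 - m i + s = s - m i := by ring
    rw [e2]
    ring
  refine equidec_of_pointwise hinv (I := Finset.Icc (-(R : ℤ)) R) D (fun d => (d : ℤ) • t)
    ?_ ?_ ?_ ?_ ?_
  · intro d
    have hd := Finset.mem_Icc.1 d.2
    refine hLOC X 𝒜 h𝒜 hinv (Finset.Icc (-(R : ℤ)) R) (Fin k ⊕ Bool) (fun p => (p : ℤ) • t)
      (fun e => Sum.elim C (fun b => if b then A else B) e) ?_ (D d) ?_
    · rintro (i | b)
      · exact h1 i
      · cases b
        · exact hB
        · exact hA
    · intro x y hxy hx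
      have hC : ∀ i p, -(R : ℤ) ≤ p → p ≤ R → (x + p • t ∈ C i ↔ y + p • t ∈ C i) :=
        fun i p hp1 hp2 => hxy ⟨p, Finset.mem_Icc.2 ⟨hp1, hp2⟩⟩ (Sum.inl i)
      have hA' : ∀ p, -(R : ℤ) ≤ p → p ≤ R → (x + p • t ∈ A ↔ y + p • t ∈ A) := by
        intro p hp1 hp2
        have := hxy ⟨p, Finset.mem_Icc.2 ⟨hp1, hp2⟩⟩ (Sum.inr true)
        simpa using this
      have hB' : ∀ p, -(R : ℤ) ≤ p → p ≤ R → (x + p • t ∈ B ↔ y + p • t ∈ B) := by
        intro p hp1 hp2
        have := hxy ⟨p, Finset.mem_Icc.2 ⟨hp1, hp2⟩⟩ (Sum.inr false)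
        simpa using this
      obtain ⟨g1, g2, g3⟩ := hx
      refine ⟨?_, ?_, ?_⟩
      · have := (hA' 0 (by omega) (by omega))
        rw [zero_smul, add_zero, add_zero] at this
        exact this.1 g1
      · exact (hB' d hd.1 hd.2).1 g2
      · have e1 : cum (β y) d = cum (β x) d :=
          (cum_congr (fun p hp1 hp2 => ind_congr (hB' p hp1 hp2)) hd.1 hd.2).symm
        have e2 : f y 0 = f x 0 := by
          show (∑ i, (cum (γ y i) 0 - cum (γ y i) (0 - m i))) / (n : ℤ) =
            (∑ i, (cum (γ x i) 0 - cum (γ x i) (0 - m i))) / (n : ℤ)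
          congr 1
          refine Finset.sum_congr rfl fun i _ => ?_
          rw [cum_zero, cum_zero]
          congr 1
          have := hR i
          exact (cum_congr (fun p hp1 hp2 => ind_congr (hC i p hp1 hp2)) (by omega)
            (by omega)).symm
        rw [e1, e2, g3]
  · rintro d x hx
    exact hx.1
  · intro x hx
    have hα0 : α x 0 = 1 := by
      show ind A (x + (0 : ℤ) • t) = 1
      rw [zero_smul, add_zero]
      exact ind_eq_one.2 hx
    obtain ⟨y, ⟨hy1, hy2, hy3⟩, hu⟩ := (key x).1 0 hα0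
    rw [cum_zero, zero_add] at hy3
    refine ⟨⟨y, Finset.mem_Icc.2 ⟨by linarith [hy1.1], by linarith [hy1.2]⟩⟩,
      ⟨hx, ind_eq_one.1 hy2, hy3⟩, ?_⟩
    rintro ⟨d, hd⟩ ⟨-, hd2, hd3⟩
    have hd' := Finset.mem_Icc.1 hd
    apply Subtype.ext
    refine hu d ⟨⟨by linarith [hd'.1], by linarith [hd'.2]⟩, ind_eq_one.2 hd2, ?_⟩
    rw [cum_zero, zero_add]
    exact hd3
  · rintro d x ⟨-, hx, -⟩
    rw [add_comm]
    exact hx
  · intro y hy
    have hβ0 : β y 0 = 1 := by
      show ind B (y + (0 : ℤ) • t) = 1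
      rw [zero_smul, add_zero]
      exact ind_eq_one.2 hy
    have hiff : ∀ d : ℤ, (y - d • t ∈ A ∧ y - d • t + d • t ∈ B ∧
        cum (β (y - d • t)) d = f (y - d • t) 0) ↔
        (α y (-d) = 1 ∧ cum (β y) 0 = cum (β y) (-d) + f y (-d)) := by
      intro d
      have e : y - d • t = y + (-d) • t := by
        rw [neg_smul, sub_eq_add_neg]
      rw [e, hfs, hβs, add_neg_cancel, ← e]
      constructor
      · rintro ⟨g1, -, g3⟩
        refine ⟨?_, by linarith⟩
        show ind A (y + (-d) • t) = 1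
        rw [← e]
        exact ind_eq_one.2 g1
      · rintro ⟨g1, g3⟩
        refine ⟨?_, ?_, by linarith⟩
        · rw [e]
          exact ind_eq_one.1 g1
        · rw [sub_add_cancel]
          exact hy
    obtain ⟨p, ⟨hp1, hp2⟩, hu⟩ := (key y).2 0 hβ0
    refine ⟨⟨-p, Finset.mem_Icc.2 ⟨by linarith [hp1.2], by linarith [hp1.1]⟩⟩, ?_, ?_⟩
    · show y - (-p) • t ∈ A ∧ y - (-p) • t + (-p) • t ∈ B ∧
        cum (β (y - (-p) • t)) (-p) = f (y - (-p) • t) 0
      rw [hiff, neg_neg]
      exact hp2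
    · rintro ⟨d, hd⟩ hx
      have hx : y - d • t ∈ A ∧ y - d • t + d • t ∈ B ∧
        cum (β (y - d • t)) d = f (y - d • t) 0 := hx
      rw [hiff] at hx
      have hd' := Finset.mem_Icc.1 hd
      apply Subtype.ext
      show d = -p
      rw [← hu (-d) ⟨⟨by linarith [hd'.2], by linarith [hd'.1]⟩, hx⟩, neg_neg]

end Pool.Agent.Y328.CC
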